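import Pool.Agent.H73.TS.Targets

/-!
Module `HAD` of the board ts_modules.
-/

open MeasureTheory Set Metric
open scoped ENNReal

namespace Pool.Agent.H74.TS

open Pool.Agent.H73.TS

/-- Hadamard inequality for rows of norm at most one -/
theorem det_le_one {d : ℕ} (A : Matrix (Fin d) (Fin d) ℝ)
    (h : ∀ i, ‖(WithLp.toLp 2 (A i) : E d)‖ ≤ 1) : |A.det| ≤ 1 := by
  haveI : Fact (Module.finrank ℝ (E d) = d) := ⟨by simp⟩
  set b : OrthonormalBasis (Fin d) ℝ (E d) := EuclideanSpace.basisFun (Fin d) ℝ with hb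
  set o := b.toBasis.orientation with ho
  have h1 := o.abs_volumeForm_apply_le (fun i => (WithLp.toLp 2 (A i) : E d))
  rw [o.volumeForm_robust' b] at h1
  have h2 : b.toBasis.det (fun i => (WithLp.toLp 2 (A i) : E d)) = A.det := by
    rw [Module.Basis.det_apply, ← Matrix.det_transpose A]
    rfl
  rw [h2] at h1
  exact le_trans h1 (Finset.prod_le_one (fun i _ => norm_nonneg _) (fun i _ => h i))

theorem had (hPAR : T_PAR) : T_HAD := by
  intro d w w' v v' hw hw' hsub
  obtain ⟨L, hLw, hLvol, hLE⟩ := hPAR d w v hw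
  obtain ⟨L', hLw', hLvol', -⟩ := hPAR d w' v' hw'
  set c : E d := v + ∑ i, (1 / 2 : ℝ) • w i with hc
  set M : E d →ₗ[ℝ] E d := (L' : E d →ₗ[ℝ] E d) ∘ₗ (L.symm : E d →ₗ[ℝ] E d) with hM
  -- coordinates
  have hcoord : ∀ b : E d, ‖b‖ ≤ 1 / 2 → ∀ i : Fin d,
      0 ≤ (L' (c - v')) i + (M b) i ∧ (L' (c - v')) i + (M b) i ≤ 1 := by
    intro b hb i
    obtain ⟨a, ha, hy⟩ := hsub (hLE b hb)
    have h1 : L' ((c + L.symm b) - v') = ∑ j, a j • EuclideanSpace.single j (1 : ℝ) := by
      have h2 : (c + L.symm b) - v' = ∑ j, a j • w' j := by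
        rw [hc, hy]
        abel
      rw [h2, map_sum]
      refine Finset.sum_congr rfl fun j _ => ?_
      rw [map_smul, hLw']
    have h3 : (L' ((c + L.symm b) - v')) i = a i := by
      rw [h1]
      simp [Pi.single_apply]
    have h4 : (L' ((c + L.symm b) - v')) i = (L' (c - v')) i + (M b) i := by
      have h5 : (c + L.symm b) - v' = (c - v') + L.symm b := by abel
      rw [h5, map_add]
      rfl
    rw [← h4, h3]
    exact ha i
  have habs : ∀ b : E d, ‖b‖ ≤ 1 / 2 → ∀ i : Fin d, (M b) i ≤ 1 / 2 := by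
    intro b hb i
    have h1 := hcoord b hb i
    have h2 := hcoord (-b) (by rwa [norm_neg]) i
    have h3 : (M (-b)) i = - (M b) i := by rw [map_neg]; rfl
    rw [h3] at h2
    linarith [h1.2, h2.1]
  set A : Matrix (Fin d) (Fin d) ℝ := fun i j => (M (EuclideanSpace.single j (1 : ℝ))) i with hA
  have hMb : ∀ (b : E d) (i : Fin d), (M b) i = ∑ j, A i j * b j := by
    intro b i
    have h1 : b = ∑ j, b j • EuclideanSpace.single j (1 : ℝ) := by
      ext k
      simp [Pi.single_apply]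
    conv_lhs => rw [h1]
    rw [map_sum]
    simp only [map_smul]
    rw [WithLp.ofLp_sum, Finset.sum_apply]
    refine Finset.sum_congr rfl fun j _ => ?_
    simp only [hA, PiLp.smul_apply, smul_eq_mul]
    ring
  have hrow : ∀ i, ‖(WithLp.toLp 2 (A i) : E d)‖ ≤ 1 := by
    intro i
    set r : E d := WithLp.toLp 2 (A i) with hr
    by_cases h0 : ‖r‖ = 0
    · rw [h0]; norm_num
    have hpos : 0 < ‖r‖ := lt_of_le_of_ne (norm_nonneg _) (Ne.symm h0)
    have hb : ‖((2 * ‖r‖)⁻¹ • r : E d)‖ ≤ 1 / 2 := by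
      rw [norm_smul, Real.norm_of_nonneg (by positivity)]
      rw [mul_inv, mul_assoc, inv_mul_cancel₀ h0]
      norm_num
    have h1 := habs _ hb i
    rw [hMb] at h1
    have h2 : ∑ j, A i j * ((2 * ‖r‖)⁻¹ • r : E d) j = (2 * ‖r‖)⁻¹ * ‖r‖ ^ 2 := by
      rw [EuclideanSpace.norm_sq_eq, Finset.mul_sum]
      refine Finset.sum_congr rfl fun j _ => ?_
      have : r j = A i j := rfl
      rw [PiLp.smul_apply, smul_eq_mul, this, Real.norm_eq_abs, sq_abs]
      ring
    rw [h2] at h1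
    have h3 : (2 * ‖r‖)⁻¹ * ‖r‖ ^ 2 = ‖r‖ / 2 := by
      field_simp
    rw [h3] at h1
    linarith
  have hdetA : |A.det| ≤ 1 := det_le_one A hrow
  have hdetM : LinearMap.det M = A.det := by
    rw [← LinearMap.det_toMatrix (EuclideanSpace.basisFun (Fin d) ℝ).toBasis]
    congr 1
  have hcomp : LinearMap.det M =
      LinearMap.det (L' : E d →ₗ[ℝ] E d) * LinearMap.det (L.symm : E d →ₗ[ℝ] E d) := by
    rw [hM, LinearMap.det_comp]
  have hinv : LinearMap.det (L.symm : E d →ₗ[ℝ] E d) * LinearMap.det (L : E d →ₗ[ℝ] E d) = 1 := by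
    rw [← LinearMap.det_comp]
    have : (L.symm : E d →ₗ[ℝ] E d) ∘ₗ (L : E d →ₗ[ℝ] E d) = LinearMap.id := by
      ext x
      simp
    rw [this, LinearMap.det_id]
  have hle : |LinearMap.det (L' : E d →ₗ[ℝ] E d)| ≤ |LinearMap.det (L : E d →ₗ[ℝ] E d)| := by
    have h1 : LinearMap.det (L' : E d →ₗ[ℝ] E d) =
        LinearMap.det M * LinearMap.det (L : E d →ₗ[ℝ] E d) := by
      rw [hcomp, mul_assoc, hinv, mul_one]
    rw [h1, abs_mul, hdetM]
    exact mul_le_of_le_one_left (abs_nonneg _) hdetA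
  calc volume (Par w v)
      = volume (Par w v) * (volume (Par w' v') *
          ENNReal.ofReal |LinearMap.det (L' : E d →ₗ[ℝ] E d)|) := by rw [hLvol', mul_one]
    _ ≤ volume (Par w v) * (volume (Par w' v') *
          ENNReal.ofReal |LinearMap.det (L : E d →ₗ[ℝ] E d)|) := by
        gcongr
    _ = volume (Par w' v') * (volume (Par w v) *
          ENNReal.ofReal |LinearMap.det (L : E d →ₗ[ℝ] E d)|) := by ring
    _ = volume (Par w' v') := by rw [hLvol, mul_one]

end Pool.Agent.H74.TS
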