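import Pool.Agent.H73.TS.Targets

/-!
Module `KEY` of the board ts_modules.
-/

open MeasureTheory Set Metric
open scoped ENNReal

namespace Pool.Agent.H74.TS

open Pool.Agent.H73.TS

theorem isCompact_sec {n : ℕ} {P : Set (E (n + 1))} (hP : IsCompact P) (t : ℝ) :
    IsCompact (sec P t) := by
  have h0 : IsClosed {x : E (n + 1) | x 0 = t} := by
    refine isClosed_eq ?_ continuous_const
    fun_prop
  have h1 : IsCompact (P ∩ {x : E (n + 1) | x 0 = t}) := hP.inter_right h0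
  have h2 : sec P t = tl '' (P ∩ {x : E (n + 1) | x 0 = t}) := by
    ext y
    constructor
    · intro hy
      exact ⟨cons t y, ⟨hy, by simp⟩, by simp⟩
    · rintro ⟨x, ⟨hx, hx0⟩, rfl⟩
      rw [mem_sec]
      have h3 : cons t (tl x) = x := by
        conv_rhs => rw [← cons_tl x]
        rw [show x 0 = t from hx0]
      rw [h3]
      exact hx
  rw [h2]
  exact h1.image continuous_tl

theorem mix_sec {n : ℕ} {P : Set (E (n + 1))} (hP : Convex ℝ P) {s t a b : ℝ} {x y : E n}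
    (ha : 0 ≤ a) (hb : 0 ≤ b) (hab : a + b = 1) (hx : x ∈ sec P s) (hy : y ∈ sec P t) :
    a • x + b • y ∈ sec P (a * s + b * t) := by
  rw [mem_sec] at *
  have h := hP hx hy ha hb hab
  rwa [smul_cons, smul_cons, cons_add] at h

theorem key (hSLAB : T_SLAB) (hSC : T_SC) (hND : T_ND) (hINT : T_INT) (hQB : T_QB) : T_KEY := by
  intro n P hn1 hn7 hPc hPconv h0 h1
  have hcomp : ∀ t, IsCompact (sec P t) := isCompact_sec hPc
  have hconv : ∀ t, Convex ℝ (sec P t) := by
    intro t x hx y hy a b ha hb hab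
    have h := mix_sec hPconv ha hb hab hx hy
    have e1 : a * t + b * t = t := by rw [← add_mul, hab, one_mul]
    rwa [e1] at h
  have hmix : ∀ t ∈ Set.Icc (0 : ℝ) 1, ∀ a ∈ sec P 0, ∀ b ∈ sec P 1,
      (1 - t) • a + t • b ∈ sec P t := by
    intro t ht a ha b hb
    have h := mix_sec hPconv (a := 1 - t) (b := t) (by linarith [ht.2]) ht.1 (by ring) ha hb
    have e1 : (1 - t) * 0 + t * 1 = t := by ring
    rwa [e1] at h
  set w₀ := W (sec P 0) with hw₀
  set w₁ := W (sec P 1) with hw₁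
  have hw₀pos : 0 < w₀ := (hINT n (sec P 0) h0 (hcomp 0).isBounded).2.2
  have hw₁pos : 0 < w₁ := (hINT n (sec P 1) h1 (hcomp 1).isBounded).2.2
  have hne : ∀ t ∈ Set.Icc (0 : ℝ) 1, (sec P t).Nonempty := by
    intro t ht
    obtain ⟨a, ha⟩ := h0
    obtain ⟨b, hb⟩ := h1
    exact ⟨_, hmix t ht a ha b hb⟩
  have hg : ∀ t ∈ Set.Icc (0 : ℝ) 1, hh w₀ w₁ t ≤ W (sec P t) := by
    intro t ht
    exact hSC n (sec P 0) (sec P 1) (sec P t) t hn1 hn7 (hcomp 0) (hconv 0) h0 (hcomp 1)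
      (hconv 1) h1 (hcomp t) ht.1 ht.2 (hmix t ht)
  have hcont : ContinuousOn (hh w₀ w₁) (Set.Icc 0 1) := by
    unfold hh
    fun_prop
  have hS := fun c => hSLAB n P hPc hne c (hh w₀ w₁) hcont hg
  rcases le_total w₀ w₁ with h | h
  · obtain ⟨c, hc⟩ := hND w₀ w₁ hw₀pos h
    exact le_trans hc (hS c)
  · obtain ⟨c, hc⟩ := hND w₁ w₀ hw₁pos h
    have h2 := hS (-c)
    have hodd : er (-c) = - er c := hQB.2.1 c
    have hint : ∫ t in (0 : ℝ)..1, hh w₁ w₀ t = ∫ t in (0 : ℝ)..1, hh w₀ w₁ t := by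
      have h3 : ∀ t : ℝ, hh w₁ w₀ t = hh w₀ w₁ (1 - t) := by
        intro t
        unfold hh
        congr 1
        ring
      simp only [h3]
      rw [intervalIntegral.integral_comp_sub_left (fun t => hh w₀ w₁ t) 1]
      norm_num
    rw [hodd] at h2
    have e2 : (-c) ^ 2 = c ^ 2 := by ring
    rw [e2] at h2
    rw [hint] at hc
    linarith

end Pool.Agent.H74.TS
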